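import Pool.Agent.R852.LK.Pairs

set_option autoImplicit false

/-!
# Pairs `(c₁, c₂)`, `1 ≤ c₁ ≤ c₂ + 1`, with large kernels of the discriminants
-/

open Finset Filter Topology

namespace Pool.Agent.Run7.h572.FD

open Pool.Agent.R920.CH Pool.Agent.R852.BC Pool.Agent.R852.LK

lemma card_le_of_diff (S : Finset ℤ) (L : ℝ) (hL : 0 ≤ L)
    (h : ∀ a ∈ S, ∀ b ∈ S, a < b → ((b : ℝ) - a) ≤ L) : (S.card : ℝ) ≤ L + 1 := by
  rcases S.eq_empty_or_nonempty with he | hne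
  · rw [he]; simp; linarith
  set m := S.min' hne with hm
  have hmS : m ∈ S := S.min'_mem hne
  have hsub : S ⊆ Icc m (m + ⌊L⌋) := by
    intro b hb
    rw [mem_Icc]
    have h1 : m ≤ b := S.min'_le b hb
    refine ⟨h1, ?_⟩
    rcases eq_or_lt_of_le h1 with h2 | h2
    · rw [← h2]
      have := Int.floor_nonneg.2 hL
      linarith
    · have h3 := h m hmS b hb h2
      have h4 : b - m ≤ ⌊L⌋ := by
        rw [Int.le_floor]
        push_cast
        exact h3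
      linarith
  have h1 := card_le_card hsub
  rw [Int.card_Icc] at h1
  have h2 : (m + ⌊L⌋ + 1 - m).toNat = (⌊L⌋ + 1).toNat := by congr 1; ring
  rw [h2] at h1
  have h3 : ((⌊L⌋ + 1).toNat : ℤ) = ⌊L⌋ + 1 := Int.toNat_of_nonneg (by
    have := Int.floor_nonneg.2 hL
    linarith)
  have h4 : (((⌊L⌋ + 1).toNat : ℕ) : ℝ) = (⌊L⌋ : ℝ) + 1 := by exact_mod_cast h3
  have h5 : (S.card : ℝ) ≤ (((⌊L⌋ + 1).toNat : ℕ) : ℝ) := by exact_mod_cast h1
  have h6 := Int.floor_le L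
  linarith

/-- the `c₁` for a given discriminant `t` -/
noncomputable def Sf (X : ℝ) (c : ℤ × ℤ) (t : ℤ) : Prop :=
  1 ≤ c.1 ∧ c.1 ≤ c.2 + 1 ∧ 1 ≤ c.2 ∧ (c.2 : ℝ) ≤ X ∧ c.1 ^ 2 - 4 * c.2 = t

lemma Sf_card {X : ℝ} {t : ℤ} {r : ℝ} (hr : 0 < r) (hrt : r ^ 2 ≤ |(t : ℝ)|) (hX : 1 ≤ X)
    (S : Finset (ℤ × ℤ)) (hS : ∀ c ∈ S, Sf X c t) : (S.card : ℝ) ≤ 4 * X / r + 1 := by
  classical
  have hX0 : (0 : ℝ) < X := by linarith
  have hinj : Set.InjOn (fun c : ℤ × ℤ => c.1) (S : Set (ℤ × ℤ)) := by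
    rintro ⟨a, c⟩ ha ⟨b, e⟩ hb h
    have h1 := (hS _ ha).2.2.2.2
    have h2 := (hS _ hb).2.2.2.2
    simp only at h h1 h2
    subst h
    simp only [Prod.mk.injEq, true_and]
    linarith
  rw [← card_image_of_injOn hinj]
  apply card_le_of_diff _ _ (by positivity)
  intro a ha b hb hab
  obtain ⟨⟨a', c⟩, ha', rfl⟩ := mem_image.1 ha
  obtain ⟨⟨b', e⟩, hb', rfl⟩ := mem_image.1 hb
  obtain ⟨a1, a2, c1, c2, hca⟩ := hS _ ha'
  obtain ⟨b1, b2, e1, e2, heb⟩ := hS _ hb'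
  simp only at hab a1 a2 c1 c2 hca b1 b2 e1 e2 heb ⊢
  rw [le_div_iff₀ hr]
  have ra : (1 : ℝ) ≤ a' := by exact_mod_cast a1
  have rb : (1 : ℝ) ≤ b' := by exact_mod_cast b1
  have rab : (a' : ℝ) < b' := by exact_mod_cast hab
  have rc : (1 : ℝ) ≤ c := by exact_mod_cast c1
  have re : (1 : ℝ) ≤ e := by exact_mod_cast e1
  have ea : (a' : ℝ) ^ 2 - 4 * c = t := by exact_mod_cast hca
  have eb : (b' : ℝ) ^ 2 - 4 * e = t := by exact_mod_cast heb
  rcases le_total 0 (t : ℝ) with hp | hn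
  · rw [abs_of_nonneg hp] at hrt
    have h2 : r < a' := by
      apply lt_of_pow_lt_pow_left₀ 2 (by linarith)
      linarith
    have h3 : ((b' : ℝ) - a') * r ≤ (b' - a') * (b' + a') :=
      mul_le_mul_of_nonneg_left (by linarith) (by linarith)
    have h4 : ((b' : ℝ) - a') * (b' + a') = 4 * (e - c) := by linear_combination eb - ea
    linarith
  · rw [abs_of_nonpos hn] at hrt
    have h2 : (b' : ℝ) ^ 2 + r ^ 2 ≤ 4 * X := by linarith
    have h3 : ((b' : ℝ) - a') * r ≤ b' * r := mul_le_mul_of_nonneg_right (by linarith) hr.le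
    nlinarith [sq_nonneg ((b' : ℝ) - r)]

/-- the size of the square root of the quotient of the discriminant by its kernel -/
lemma Sf_size {X : ℝ} {t : ℤ} {r : ℝ} (hr : 0 < r) (hrt : r ^ 2 ≤ |(t : ℝ)|) (hX : 1 ≤ X)
    {c : ℤ × ℤ} (hc : Sf X c t) : r ≤ X + 1 := by
  obtain ⟨a1, a2, c1, c2, hca⟩ := hc
  have ra : (1 : ℝ) ≤ c.1 := by exact_mod_cast a1
  have ra' : (c.1 : ℝ) ≤ c.2 + 1 := by exact_mod_cast a2
  have rc : (1 : ℝ) ≤ c.2 := by exact_mod_cast c1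
  have ea : (c.1 : ℝ) ^ 2 - 4 * c.2 = t := by exact_mod_cast hca
  rcases le_total 0 (t : ℝ) with hp | hn
  · rw [abs_of_nonneg hp] at hrt
    have h2 : r < c.1 := by
      apply lt_of_pow_lt_pow_left₀ 2 (by linarith)
      linarith
    linarith
  · rw [abs_of_nonpos hn] at hrt
    have h2 : r ^ 2 ≤ 4 * X := by nlinarith
    nlinarith [sq_nonneg (X - 1)]

lemma harm' (F : ℕ) : ∑ f ∈ Icc 1 F, 1 / (f : ℝ) ≤ 1 + Real.log F := by
  have h5 := harmonic_le_one_add_log F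
  rw [harmonic_eq_sum_Icc] at h5
  push_cast at h5
  simpa [one_div] using h5

/-- the pairs with a given kernel of the discriminant -/
lemma kernel_card {X q : ℝ} (hX : 1 ≤ X) (hq : 1 ≤ q) (f : ℤ) (hf : q ^ 2 ≤ |(f : ℝ)|)
    (S : Finset (ℤ × ℤ)) (σ : ℤ × ℤ → ℤ)
    (hS : ∀ c ∈ S, 0 < σ c ∧ Sf X c (f * σ c ^ 2)) :
    (S.card : ℝ) ≤ X / q * (6 + 4 * Real.log (2 * X)) := by
  classical
  have hq0 : 0 < q := by linarith
  have hX0 : 0 < X := by linarith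
  obtain ⟨F, hF⟩ : ∃ F : ℕ, F = ⌊(X + 1) / q⌋₊ := ⟨_, rfl⟩
  have hrt : ∀ s : ℤ, 0 < s → (q * s) ^ 2 ≤ |((f * s ^ 2 : ℤ) : ℝ)| := by
    intro s hs
    push_cast
    rw [abs_mul, mul_pow, abs_of_nonneg (sq_nonneg (s : ℝ))]
    exact mul_le_mul_of_nonneg_right hf (sq_nonneg _)
  have hpos : ∀ s : ℤ, 0 < s → 0 < q * s := by
    intro s hs
    have : (0 : ℝ) < s := by exact_mod_cast hs
    positivity
  have hmap : ∀ c ∈ S, (σ c).toNat ∈ Icc 1 F := by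
    intro c hc
    obtain ⟨h1, h2⟩ := hS c hc
    rw [Finset.mem_Icc]
    constructor
    · omega
    · rw [hF]
      apply Nat.le_floor
      have h4 : (((σ c).toNat : ℕ) : ℝ) = (σ c : ℝ) := by
        have : (((σ c).toNat : ℕ) : ℤ) = σ c := Int.toNat_of_nonneg h1.le
        exact_mod_cast this
      rw [h4, le_div_iff₀ hq0, mul_comm]
      exact Sf_size (hpos _ h1) (hrt _ h1) hX h2
  have hsum : (S.card : ℝ) = ∑ s ∈ Icc 1 F, ((S.filter fun c => (σ c).toNat = s).card : ℝ) := by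
    have := Finset.card_eq_sum_card_fiberwise hmap
    exact_mod_cast this
  have hterm : ∀ s ∈ Icc 1 F, ((S.filter fun c => (σ c).toNat = s).card : ℝ) ≤
      4 * X / q * (1 / (s : ℝ)) + 1 := by
    intro s hs
    rw [Finset.mem_Icc] at hs
    have hs0 : (0 : ℤ) < s := by exact_mod_cast hs.1
    have h1 := Sf_card (X := X) (t := f * (s : ℤ) ^ 2) (hpos s hs0) (hrt s hs0) hX
      (S.filter fun c => (σ c).toNat = s) (by
        intro c hc
        rw [Finset.mem_filter] at hc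
        obtain ⟨h1, h2⟩ := hS c hc.1
        have h3 : (s : ℤ) = σ c := by rw [← hc.2]; exact Int.toNat_of_nonneg h1.le
        rw [h3]; exact h2)
    refine h1.trans (le_of_eq ?_)
    push_cast
    rw [div_mul_div_comm, mul_one]
  have hFX : (F : ℝ) ≤ 2 * X / q := by
    rw [hF]
    refine (Nat.floor_le (by positivity)).trans ?_
    exact div_le_div_of_nonneg_right (by linarith) hq0.le
  have hlog : Real.log F ≤ Real.log (2 * X) := by
    rcases Nat.eq_zero_or_pos F with h0 | h0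
    · rw [h0, Nat.cast_zero, Real.log_zero]
      exact Real.log_nonneg (by linarith)
    · exact Real.log_le_log (by exact_mod_cast h0) (hFX.trans (div_le_self (by positivity) hq))
  rw [hsum]
  refine (sum_le_sum hterm).trans ?_
  rw [sum_add_distrib, ← mul_sum, sum_const, Nat.card_Icc, nsmul_eq_mul, mul_one,
    Nat.add_sub_cancel]
  have h1 : 4 * X / q * ∑ s ∈ Icc 1 F, 1 / (s : ℝ) ≤ 4 * X / q * (1 + Real.log (2 * X)) :=
    mul_le_mul_of_nonneg_left ((harm' F).trans (by linarith)) (by positivity)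
  calc 4 * X / q * ∑ s ∈ Icc 1 F, 1 / (s : ℝ) + (F : ℝ)
      ≤ 4 * X / q * (1 + Real.log (2 * X)) + 2 * X / q := by linarith
    _ = _ := by ring

/-- **The kernels of the exceptional discriminants**: there are few of them, and they are large. -/
theorem kernels (A ε : ℝ) (hε : 0 < ε) : ∀ᶠ n : ℕ in atTop, ∀ S : Finset ℤ,
    (∀ D ∈ S, |(D : ℝ)| ≤ (n : ℝ) ^ A ∧ ¬ IsSquare D ∧ IsDisc n D) →
    ∃ κ σ : ℤ → ℤ, (∀ D ∈ S, 0 < σ D ∧ D = κ D * σ D ^ 2 ∧ κ D ≠ 0 ∧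
      (n : ℝ) ^ (4 * Real.exp (1 / 2) - ε) ≤ |(κ D : ℝ)|) ∧
      ((S.image κ).card : ℝ) ≤ (n : ℝ) ^ ε := by
  classical
  filter_upwards [core (max A 0) ε (le_max_right _ _) (by positivity), rank_two A ε hε,
    eventually_ge_atTop 1] with n hcore hrank hn1 S hS
  have hn0 : (0 : ℝ) < n := by exact_mod_cast hn1
  have hnone : (1 : ℝ) ≤ n := by exact_mod_cast hn1
  have hne : ∀ D ∈ S, D ≠ 0 := by
    rintro D hD rfl
    exact (hS 0 hD).2.1 ⟨0, by ring⟩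
  choose! κ σ h1 h2 h3 using sqf
  refine ⟨κ, σ, fun D hD => ⟨h2 D (hne D hD), h3 D (hne D hD), (h1 D (hne D hD)).ne_zero, ?_⟩, ?_⟩
  · by_contra hcon
    push Not at hcon
    obtain ⟨hX, hns, c₁, c₂, hRR, hc⟩ := hS _ hD
    have e1 := h3 _ (hne D hD)
    obtain ⟨a, b, ha, hb⟩ := hrank c₁ c₂ (κ D) (σ D) hRR (by rw [hc]; exact e1)
      (by rw [hc]; push_cast; exact hX) (by push_cast; exact hcon.le)
    apply hns
    refine ⟨a - b, ?_⟩
    rw [← hc, ha, hb]; ring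
  · -- representatives
    have hrep : ∀ f ∈ S.image κ, ∃ D ∈ S, κ D = f := fun f hf => Finset.mem_image.mp hf
    choose! ρ hρ1 hρ2 using hrep
    have hinj : Set.InjOn ρ ((S.image κ : Finset ℤ) : Set ℤ) := by
      intro f hf g hg hfg
      rw [← hρ2 f hf, ← hρ2 g hg, hfg]
    rw [← card_image_of_injOn hinj]
    apply hcore
    · intro D hD
      obtain ⟨f, hf, rfl⟩ := Finset.mem_image.mp hD
      refine ⟨hne _ (hρ1 f hf), ?_⟩
      exact (hS _ (hρ1 f hf)).1.trans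
        (Real.rpow_le_rpow_of_exponent_le hnone (le_max_left _ _))
    · intro D hD E hE hDE hsq
      obtain ⟨f, hf, rfl⟩ := Finset.mem_image.mp hD
      obtain ⟨g, hg, rfl⟩ := Finset.mem_image.mp hE
      apply hDE
      have hDn := hne _ (hρ1 f hf)
      have hEn := hne _ (hρ1 g hg)
      have hfg : f = g := by
        apply sq_prod f g
        · rw [← hρ2 f hf]; exact h1 _ hDn
        · rw [← hρ2 g hg]; exact h1 _ hEn
        · have e1 := h3 _ hDn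
          have e2 := h3 _ hEn
          rw [hρ2 f hf] at e1
          rw [hρ2 g hg] at e2
          rw [e1, e2] at hsq
          have e3 : f * σ (ρ f) ^ 2 * (g * σ (ρ g) ^ 2) =
              (f * g) * (σ (ρ f) * σ (ρ g)) ^ 2 := by ring
          rw [e3] at hsq
          have hnz : σ (ρ f) * σ (ρ g) ≠ 0 :=
            mul_ne_zero (h2 _ hDn).ne' (h2 _ hEn).ne'
          obtain ⟨t, ht⟩ := hsq
          have hdvd : (σ (ρ f) * σ (ρ g)) ^ 2 ∣ t ^ 2 := ⟨f * g, by rw [sq t, ← ht]; ring⟩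
          obtain ⟨u, hu⟩ := (Int.pow_dvd_pow_iff two_ne_zero).mp hdvd
          refine ⟨u, ?_⟩
          apply mul_right_cancel₀ (pow_ne_zero 2 hnz)
          rw [ht, hu]; ring
      rw [hfg]
    · intro D hD p hp hpD
      obtain ⟨f, hf, rfl⟩ := Finset.mem_image.mp hD
      obtain ⟨c₁, c₂, hRR, hc⟩ := (hS _ (hρ1 f hf)).2.2
      obtain ⟨hp1, hp2, hp3⟩ := mem_PR.mp hp
      apply ps_one_of _ p hp2 hp3 hpD
      rw [← hc]
      exact square_mod hRR p hp2 hp3 (by omega)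

theorem log_small (A ε : ℝ) (hε : 0 < ε) : ∀ᶠ n : ℕ in atTop,
    6 + 4 * (Real.log 2 + A * Real.log n) ≤ (n : ℝ) ^ ε := by
  have h1 : (fun x : ℝ => 6 + 4 * (Real.log 2 + A * Real.log x)) =o[atTop]
      fun x : ℝ => x ^ ε := by
    have h2 := isLittleO_log_rpow_atTop hε
    have h3 : (fun _ : ℝ => (6 + 4 * Real.log 2 : ℝ)) =o[atTop] fun x : ℝ => x ^ ε := by
      rw [Asymptotics.isLittleO_const_left]
      right
      refine (tendsto_rpow_atTop hε).congr' ?_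
      filter_upwards [eventually_ge_atTop 0] with x hx
      simp only [Function.comp]
      rw [Real.norm_of_nonneg (Real.rpow_nonneg hx _)]
    have h4 := h3.add (h2.const_mul_left (4 * A))
    refine h4.congr_left fun x => ?_
    ring
  have h5 := h1.bound (by norm_num : (0 : ℝ) < 1)
  have h6 := tendsto_natCast_atTop_atTop (R := ℝ)
  filter_upwards [h6.eventually h5, eventually_ge_atTop 1] with n hn hn1
  rw [one_mul, Real.norm_of_nonneg (Real.rpow_nonneg (Nat.cast_nonneg n) _)] at hn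
  exact (le_abs_self _).trans hn

theorem pairs_card' (A ε : ℝ) (hε : 0 < ε) (hε1 : ε ≤ 1) : ∀ᶠ n : ℕ in atTop, ∀ X : ℝ, 1 ≤ X →
    X ≤ (n : ℝ) ^ A → ∀ S : Finset (ℤ × ℤ),
      (∀ c ∈ S, 1 ≤ c.1 ∧ c.1 ≤ c.2 + 1 ∧ 1 ≤ c.2 ∧ (c.2 : ℝ) ≤ X ∧
        RiemannRoch n (poly2 c.1 c.2) ∧ ¬ IsSquare (c.1 ^ 2 - 4 * c.2)) →
      (S.card : ℝ) ≤ X / (n : ℝ) ^ (2 * Real.exp (1 / 2) - ε) := by
  classical
  filter_upwards [kernels (2 * |A| + 1) (ε / 2) (by positivity), log_small |A| (ε / 4) (by positivity),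
    eventually_ge_atTop 8] with n hker hl hn8 X hX1 hXA S hS
  have hn0 : (0 : ℝ) < n := by positivity
  have hn8' : (8 : ℝ) ≤ n := by exact_mod_cast hn8
  have hnone : (1 : ℝ) ≤ n := by linarith
  have hX0 : 0 < X := by linarith
  have hXA' : X ≤ (n : ℝ) ^ |A| :=
    hXA.trans (Real.rpow_le_rpow_of_exponent_le hnone (le_abs_self A))
  have hX8 : 8 * X ^ 2 ≤ (n : ℝ) ^ (2 * |A| + 1) := by
    have h1 : (n : ℝ) ^ (2 * |A| + 1) = ((n : ℝ) ^ |A|) ^ 2 * n := by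
      rw [Real.rpow_add hn0, Real.rpow_one, ← Real.rpow_natCast, ← Real.rpow_mul hn0.le]
      congr 2
      push_cast; ring
    rw [h1]
    have h2 : X ^ 2 ≤ ((n : ℝ) ^ |A|) ^ 2 := pow_le_pow_left₀ hX0.le hXA' 2
    nlinarith [sq_nonneg ((n : ℝ) ^ |A|)]
  obtain ⟨κ, σ, h1, h2⟩ := hker (S.image fun c => c.1 ^ 2 - 4 * c.2) (by
    intro D hD
    obtain ⟨c, hc, rfl⟩ := Finset.mem_image.mp hD
    obtain ⟨g1, g2, g3, g4, g5, g6⟩ := hS c hc
    refine ⟨?_, g6, c.1, c.2, g5, rfl⟩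
    refine le_trans ?_ hX8
    push_cast
    have r1 : (1 : ℝ) ≤ c.1 := by exact_mod_cast g1
    have r2 : (c.1 : ℝ) ≤ c.2 + 1 := by exact_mod_cast g2
    have r3 : (1 : ℝ) ≤ c.2 := by exact_mod_cast g3
    rw [abs_le]
    constructor
    · nlinarith
    · nlinarith)
  obtain ⟨q, hq⟩ : ∃ q : ℝ, q = (n : ℝ) ^ (2 * Real.exp (1 / 2) - ε / 4) := ⟨_, rfl⟩
  have he1 : (1 : ℝ) ≤ Real.exp (1 / 2) := Real.one_le_exp (by norm_num)
  have hq1 : 1 ≤ q := by
    rw [hq]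
    exact Real.one_le_rpow hnone (by linarith)
  have hq0 : 0 < q := by linarith
  have hq2 : q ^ 2 = (n : ℝ) ^ (4 * Real.exp (1 / 2) - ε / 2) := by
    rw [hq, ← Real.rpow_natCast, ← Real.rpow_mul hn0.le]
    congr 1
    push_cast; ring
  obtain ⟨T, hT⟩ : ∃ T : Finset ℤ, T = (S.image fun c => c.1 ^ 2 - 4 * c.2).image κ := ⟨_, rfl⟩
  rw [← hT] at h2
  have hmap : ∀ c ∈ S, κ (c.1 ^ 2 - 4 * c.2) ∈ T := fun c hc => by
    rw [hT]
    exact mem_image_of_mem _ (mem_image_of_mem _ hc)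
  have hsum : (S.card : ℝ) =
      ∑ f ∈ T, ((S.filter fun c => κ (c.1 ^ 2 - 4 * c.2) = f).card : ℝ) := by
    have := Finset.card_eq_sum_card_fiberwise (f := fun c : ℤ × ℤ => κ (c.1 ^ 2 - 4 * c.2)) hmap
    exact_mod_cast this
  have hlog : Real.log (2 * X) ≤ Real.log 2 + |A| * Real.log n := by
    rw [Real.log_mul (by norm_num) hX0.ne']
    have := Real.log_le_log hX0 hXA'
    rw [Real.log_rpow hn0] at this
    linarith
  have hterm : ∀ f ∈ T, ((S.filter fun c => κ (c.1 ^ 2 - 4 * c.2) = f).card : ℝ) ≤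
      X / q * (n : ℝ) ^ (ε / 4) := by
    intro f hf
    rw [hT] at hf
    obtain ⟨D, hD, rfl⟩ := mem_image.1 hf
    have hκ := (h1 D hD).2.2.2
    refine (kernel_card hX1 hq1 (κ D) (by rw [hq2]; exact hκ) _
      (fun c => σ (c.1 ^ 2 - 4 * c.2)) ?_).trans ?_
    · intro c hc
      rw [Finset.mem_filter] at hc
      obtain ⟨hcS, hcκ⟩ := hc
      obtain ⟨g1, g2, g3, g4, g5, g6⟩ := hS c hcS
      have h3 := h1 _ (mem_image_of_mem (fun c : ℤ × ℤ => c.1 ^ 2 - 4 * c.2) hcS)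
      refine ⟨h3.1, g1, g2, g3, g4, ?_⟩
      rw [← hcκ]
      exact h3.2.1
    · exact mul_le_mul_of_nonneg_left (by linarith) (by positivity)
  rw [hsum]
  calc ∑ f ∈ T, ((S.filter fun c => κ (c.1 ^ 2 - 4 * c.2) = f).card : ℝ)
      ≤ ∑ _f ∈ T, X / q * (n : ℝ) ^ (ε / 4) := sum_le_sum hterm
    _ = (T.card : ℝ) * (X / q * (n : ℝ) ^ (ε / 4)) := by rw [sum_const, nsmul_eq_mul]
    _ ≤ (n : ℝ) ^ (ε / 2) * (X / q * (n : ℝ) ^ (ε / 4)) :=
        mul_le_mul_of_nonneg_right h2 (by positivity)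
    _ = X / (n : ℝ) ^ (2 * Real.exp (1 / 2) - ε) := by
        have e : q = (n : ℝ) ^ (2 * Real.exp (1 / 2) - ε) * ((n : ℝ) ^ (ε / 2) *
            (n : ℝ) ^ (ε / 4)) := by
          rw [hq, ← Real.rpow_add hn0, ← Real.rpow_add hn0]; congr 1; ring
        rw [e]
        have k1 : (n : ℝ) ^ (ε / 2) ≠ 0 := (Real.rpow_pos_of_pos hn0 _).ne'
        have k2 : (n : ℝ) ^ (ε / 4) ≠ 0 := (Real.rpow_pos_of_pos hn0 _).ne'
        field_simp

/-- **Few exceptional pairs.** -/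
theorem pairs_card (A ε : ℝ) (hε : 0 < ε) : ∀ᶠ n : ℕ in atTop, ∀ X : ℝ, 1 ≤ X →
    X ≤ (n : ℝ) ^ A → ∀ S : Finset (ℤ × ℤ),
      (∀ c ∈ S, 1 ≤ c.1 ∧ c.1 ≤ c.2 + 1 ∧ 1 ≤ c.2 ∧ (c.2 : ℝ) ≤ X ∧
        RiemannRoch n (poly2 c.1 c.2) ∧ ¬ IsSquare (c.1 ^ 2 - 4 * c.2)) →
      (S.card : ℝ) ≤ X / (n : ℝ) ^ (2 * Real.exp (1 / 2) - ε) := by
  filter_upwards [pairs_card' A (min ε 1) (lt_min hε one_pos) (min_le_right _ _),
    eventually_ge_atTop 1] with n hn hn1 X hX1 hXA S hS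
  have hnone : (1 : ℝ) ≤ n := by exact_mod_cast hn1
  refine (hn X hX1 hXA S hS).trans ?_
  apply div_le_div_of_nonneg_left (by linarith) (Real.rpow_pos_of_pos (by linarith) _)
  exact Real.rpow_le_rpow_of_exponent_le hnone (by linarith [min_le_left ε 1])

end Pool.Agent.Run7.h572.FD
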